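import Mathlib
import Pool.Agent.Lib.MP_79da24_ag.Aut

/-!
Irreducible plane affine curves: the number of singular points is at most `r + n - 1`, where `r` is
the first rational Betti number of the curve and `n > 0` is the degree of the equation in the
second variable in any polynomial coordinate system of the plane.
-/

set_option autoImplicit false

open Pool.Agent.LZ

theorem Pool.Agent.Results.MP_79da24_ag.DegreeBound.result
    (f : MvPolynomial (Fin 2) ℂ) (hf : Irreducible f) :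
    (∀ α : MvPolynomial (Fin 2) ℂ ≃ₐ[ℂ] MvPolynomial (Fin 2) ℂ,
      0 < MvPolynomial.degreeOf 1 (α f) →
      ((Set.ncard {p : Fin 2 → ℂ | MvPolynomial.eval p f = 0 ∧
        ∀ i : Fin 2, MvPolynomial.eval p (MvPolynomial.pderiv i f) = 0} + 1 : ℕ) : Cardinal) ≤
      Module.rank ℚ
        (((AlgebraicTopology.singularHomologyFunctor (ModuleCat.{0} ℚ) 1).obj
          (ModuleCat.of ℚ ℚ)).obj
            (TopCat.of {z : Fin 2 → ℂ // MvPolynomial.eval z f = 0})) +
        ((MvPolynomial.degreeOf 1 (α f) : ℕ) : Cardinal)) ∧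
    (2 ≤ f.totalDegree →
      {p : Fin 2 → ℂ | MvPolynomial.eval p f = 0 ∧
        ∀ i : Fin 2, MvPolynomial.eval p (MvPolynomial.pderiv i f) = 0}.Finite ∧
      ((Set.ncard {p : Fin 2 → ℂ | MvPolynomial.eval p f = 0 ∧
        ∀ i : Fin 2, MvPolynomial.eval p (MvPolynomial.pderiv i f) = 0} + 2 : ℕ) : Cardinal) ≤
      Module.rank ℚ
        (((AlgebraicTopology.singularHomologyFunctor (ModuleCat.{0} ℚ) 1).obj
          (ModuleCat.of ℚ ℚ)).obj
            (TopCat.of {z : Fin 2 → ℂ // MvPolynomial.eval z f = 0})) +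
        ((f.totalDegree : ℕ) : Cardinal)) := by
  have key : ∀ α : MvPolynomial (Fin 2) ℂ ≃ₐ[ℂ] MvPolynomial (Fin 2) ℂ,
      0 < MvPolynomial.degreeOf 1 (α f) → (SingPts f).Finite ∧
      (((SingPts f).ncard + 1 : ℕ) : Cardinal) ≤ Module.rank ℚ (H1Q (Zer f)) +
        ((MvPolynomial.degreeOf 1 (α f) : ℕ) : Cardinal) := by
    intro α hn
    have hα : Irreducible (α f) := (MulEquiv.irreducible_iff α.toMulEquiv).mpr hf
    obtain ⟨h1, h2⟩ := final_a1 (α f) hα hn
    obtain ⟨h3, h4, h5⟩ := aut_invariance f α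
    refine ⟨h3 h1, ?_⟩
    rw [h4, h5]
    exact h2
  refine ⟨fun α hn => (key α hn).2, fun hd => ?_⟩
  obtain ⟨α, h1, h2⟩ := exists_linear_aut f hf hd
  obtain ⟨h3, h4⟩ := key α h1
  refine ⟨h3, ?_⟩
  calc (((SingPts f).ncard + 2 : ℕ) : Cardinal) = (((SingPts f).ncard + 1 : ℕ) : Cardinal) + 1 := by
        push_cast
        ring
    _ ≤ (Module.rank ℚ (H1Q (Zer f)) + ((MvPolynomial.degreeOf 1 (α f) : ℕ) : Cardinal)) + 1 :=
        add_le_add_left h4 1
    _ = Module.rank ℚ (H1Q (Zer f)) + ((MvPolynomial.degreeOf 1 (α f) + 1 : ℕ) : Cardinal) := by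
        push_cast
        rw [add_assoc]
    _ ≤ _ := by
        gcongr
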