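import Mathlib
import Pool.Agent.Lib.MP_79da24_ag.FiT

/-!
Irreducible plane affine curves: a bound for the number of singular points in terms of the first
rational Betti number `r` of the curve and the degree of the discriminant of the equation with
respect to the second variable of a polynomial coordinate system.
-/

set_option autoImplicit false

open Pool.Agent.LZ

private theorem exists_degreeOf_pos (f : MvPolynomial (Fin 2) ℂ) (hf : Irreducible f) :
    ∃ i, 0 < MvPolynomial.degreeOf i f := by
  by_contra hcon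
  push Not at hcon
  have h0 : ∀ i, MvPolynomial.degreeOf i f = 0 := fun i => Nat.le_zero.mp (hcon i)
  have hC : f = MvPolynomial.C (MvPolynomial.coeff 0 f) := by
    apply MvPolynomial.ext
    intro m
    rw [MvPolynomial.coeff_C]
    split_ifs with hm
    · rw [← hm]
    · by_contra hne
      apply hm
      symm
      ext i
      have := MvPolynomial.degreeOf_le_iff.1 (le_of_eq (h0 i)) m (MvPolynomial.mem_support_iff.2 hne)
      simpa using this
  have hne : MvPolynomial.coeff 0 f ≠ 0 := by
    intro h
    rw [h, map_zero] at hC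
    exact hf.ne_zero hC
  apply hf.not_isUnit
  rw [hC]
  exact (IsUnit.mk0 _ hne).map MvPolynomial.C

theorem Pool.Agent.Results.MP_79da24_ag.DiscriminantBound.result
    (f : MvPolynomial (Fin 2) ℂ) (hf : Irreducible f)
    (α : MvPolynomial (Fin 2) ℂ ≃ₐ[ℂ] MvPolynomial (Fin 2) ℂ)
    (F : Polynomial (Polynomial ℂ))
    (hF : F = MvPolynomial.aeval
      (![Polynomial.C Polynomial.X, Polynomial.X] : Fin 2 → Polynomial (Polynomial ℂ)) (α f))
    (D : ℕ)
    (hD : F.discr.natDegree = D + 2 * (F.natDegree - 1) * F.leadingCoeff.natDegree) :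
    {p : Fin 2 → ℂ | MvPolynomial.eval p f = 0 ∧
        ∀ i : Fin 2, MvPolynomial.eval p (MvPolynomial.pderiv i f) = 0}.Finite ∧
    (3 * (F.natDegree - 1) * (F.natDegree - 2) ≤ D →
      ((Set.ncard {p : Fin 2 → ℂ | MvPolynomial.eval p f = 0 ∧
          ∀ i : Fin 2, MvPolynomial.eval p (MvPolynomial.pderiv i f) = 0} * D +
          3 * (F.natDegree - 1) * (F.natDegree - 2) : ℕ) : Cardinal) ≤
        (Module.rank ℚ
          (((AlgebraicTopology.singularHomologyFunctor (ModuleCat.{0} ℚ) 1).obj
            (ModuleCat.of ℚ ℚ)).obj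
              (TopCat.of {z : Fin 2 → ℂ // MvPolynomial.eval z f = 0})) + 1) * (D : Cardinal) +
          ((Set.ncard {p : Fin 2 → ℂ | MvPolynomial.eval p f = 0 ∧
            ∀ i : Fin 2, MvPolynomial.eval p (MvPolynomial.pderiv i f) = 0} *
              (3 * (F.natDegree - 1) * (F.natDegree - 2)) : ℕ) : Cardinal)) ∧
    (10 * (F.natDegree - 1) * (F.natDegree - 2) ≤ 3 * D →
      ((Set.ncard {p : Fin 2 → ℂ | MvPolynomial.eval p f = 0 ∧
          ∀ i : Fin 2, MvPolynomial.eval p (MvPolynomial.pderiv i f) = 0} : ℕ) : Cardinal) ≤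
        2 * Module.rank ℚ
          (((AlgebraicTopology.singularHomologyFunctor (ModuleCat.{0} ℚ) 1).obj
            (ModuleCat.of ℚ ℚ)).obj
              (TopCat.of {z : Fin 2 → ℂ // MvPolynomial.eval z f = 0})) + 1) := by
  have hα : Irreducible (α f) := (MulEquiv.irreducible_iff α.toMulEquiv).mpr hf
  have hFt : F = toBi (α f) := by
    rw [hF, toBi]
    congr 1
    congr 1
    funext i
    fin_cases i <;> simp
  rw [hFt] at hD
  obtain ⟨i, hi⟩ := exists_degreeOf_pos f hf
  obtain ⟨_, h4, h5⟩ := aut_invariance f α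
  refine ⟨(final_a f hf i hi).1, fun hW => ?_, fun hW => ?_⟩
  · rw [hFt] at hW ⊢
    have h := (final_c' (α f) hα D hD hW).2.1
    rw [← h4, ← h5] at h
    exact h
  · rw [hFt] at hW
    have h := final_s' (α f) hα D hD hW
    rw [← h4, ← h5] at h
    exact h
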