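import Mathlib
import Pool.Agent.Lib.MP_79da24_ag.Aut

/-!
Plane affine curves which, in some polynomial coordinate system of the plane, are given by an
irreducible polynomial `a(x) b(y) - c(x) d(y)`: at most `r + 1` singular points, where `r` is the
first rational Betti number of the curve.
-/

set_option autoImplicit false

open Pool.Agent.LZ

theorem Pool.Agent.Results.MP_79da24_ag.TensorRankTwo.result
    (f : MvPolynomial (Fin 2) ℂ) (hf : Irreducible f)
    (α : MvPolynomial (Fin 2) ℂ ≃ₐ[ℂ] MvPolynomial (Fin 2) ℂ) (a b c d : Polynomial ℂ)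
    (h : α f = Polynomial.aeval (MvPolynomial.X 0) a * Polynomial.aeval (MvPolynomial.X 1) b -
      Polynomial.aeval (MvPolynomial.X 0) c * Polynomial.aeval (MvPolynomial.X 1) d) :
    {p : Fin 2 → ℂ | MvPolynomial.eval p f = 0 ∧
      ∀ i : Fin 2, MvPolynomial.eval p (MvPolynomial.pderiv i f) = 0}.Finite ∧
    ((Set.ncard {p : Fin 2 → ℂ | MvPolynomial.eval p f = 0 ∧
      ∀ i : Fin 2, MvPolynomial.eval p (MvPolynomial.pderiv i f) = 0} : ℕ) : Cardinal) ≤
      Module.rank ℚ
        (((AlgebraicTopology.singularHomologyFunctor (ModuleCat.{0} ℚ) 1).obj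
          (ModuleCat.of ℚ ℚ)).obj
            (TopCat.of {z : Fin 2 → ℂ // MvPolynomial.eval z f = 0})) + 1 ∧
    ((Set.ncard {p : Fin 2 → ℂ | MvPolynomial.eval p f = 0 ∧
      (∀ i : Fin 2, MvPolynomial.eval p (MvPolynomial.pderiv i f) = 0) ∧
      Irreducible
        (((MvPolynomial.aeval
          (fun i : Fin 2 => MvPolynomial.X i + MvPolynomial.C (p i)) f :
            MvPolynomial (Fin 2) ℂ) : MvPowerSeries (Fin 2) ℂ))} : ℕ) : Cardinal) ≤
      2 * Module.rank ℚ
        (((AlgebraicTopology.singularHomologyFunctor (ModuleCat.{0} ℚ) 1).obj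
          (ModuleCat.of ℚ ℚ)).obj
            (TopCat.of {z : Fin 2 → ℂ // MvPolynomial.eval z f = 0})) + 1 := by
  have hα : Irreducible (α f) := (MulEquiv.irreducible_iff α.toMulEquiv).mpr hf
  obtain ⟨h1, h2⟩ := final_b (α f) hα a b c d h
  obtain ⟨h3, h4, h5⟩ := aut_invariance f α
  have hfin := h3 h1
  have hle : ((SingPts f).ncard : Cardinal) ≤ Module.rank ℚ (H1Q (Zer f)) + 1 := by
    rw [h4, h5]
    exact h2
  refine ⟨hfin, hle, ?_⟩
  have hsub : {p : Fin 2 → ℂ | MvPolynomial.eval p f = 0 ∧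
      (∀ i : Fin 2, MvPolynomial.eval p (MvPolynomial.pderiv i f) = 0) ∧
      Irreducible
        (((MvPolynomial.aeval
          (fun i : Fin 2 => MvPolynomial.X i + MvPolynomial.C (p i)) f :
            MvPolynomial (Fin 2) ℂ) : MvPowerSeries (Fin 2) ℂ))} ⊆ SingPts f :=
    fun p hp => ⟨hp.1, hp.2.1⟩
  have hn := Set.ncard_le_ncard hsub hfin
  calc _ ≤ ((SingPts f).ncard : Cardinal) := by exact_mod_cast hn
    _ ≤ Module.rank ℚ (H1Q (Zer f)) + 1 := hle
    _ ≤ 2 * Module.rank ℚ (H1Q (Zer f)) + 1 := by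
        rw [two_mul]
        exact add_le_add_left le_self_add 1
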